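import Pool.Agent.N669.CQ.Stm

/-!
# CQ/AF2: affine maps, quadrilaterals (helper695)
-/

set_option autoImplicit false

namespace Pool.Agent.N695.CQ

open Pool.Agent.N669.CQ

lemma key (o u v z z' w w' : P) :
    cr (af o u v z' - af o u v z) (af o u v w' - af o u v w) = cr u v * cr (z' - z) (w' - w) := by
  simp only [cr, af, Prod.fst_sub, Prod.snd_sub, Prod.fst_add, Prod.snd_add, Prod.smul_fst, Prod.smul_snd,
    smul_eq_mul]
  ring

lemma surj (o u v : P) (h : 0 < cr u v) : Function.Surjective (af o u v) := by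
  intro k
  obtain ⟨D, hD⟩ : ∃ D, D = cr u v := ⟨_, rfl⟩
  have h0 : D ≠ 0 := by rw [hD]; exact h.ne'
  refine ⟨(cr (k - o) v / D, cr u (k - o) / D), ?_⟩
  simp only [cr] at hD
  apply Prod.ext
  · simp only [cr, af, Prod.fst_sub, Prod.snd_sub, Prod.fst_add, Prod.smul_fst, smul_eq_mul]
    have e : ((k.1 - o.1) * v.2 - (k.2 - o.2) * v.1) * u.1 + (u.1 * (k.2 - o.2) - u.2 * (k.1 - o.1)) * v.1 =
        (k.1 - o.1) * D := by rw [hD]; ring
    rw [div_mul_eq_mul_div, div_mul_eq_mul_div, add_assoc, ← add_div, e, mul_div_cancel_right₀ _ h0]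
    ring
  · simp only [cr, af, Prod.fst_sub, Prod.snd_sub, Prod.snd_add, Prod.smul_snd, smul_eq_mul]
    have e : ((k.1 - o.1) * v.2 - (k.2 - o.2) * v.1) * u.2 + (u.1 * (k.2 - o.2) - u.2 * (k.1 - o.1)) * v.2 =
        (k.2 - o.2) * D := by rw [hD]; ring
    rw [div_mul_eq_mul_div, div_mul_eq_mul_div, add_assoc, ← add_div, e, mul_div_cancel_right₀ _ h0]
    ring

lemma lf_iff (o u v : P) (h : 0 < cr u v) (K : Set P) (a b : P) :
    LF (af o u v ⁻¹' K) a b ↔ LF K (af o u v a) (af o u v b) := by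
  constructor
  · intro hl k hk
    obtain ⟨z, rfl⟩ := surj o u v h k
    rw [key]
    exact mul_nonneg h.le (hl z hk)
  · intro hl z hz
    have h1 := hl (af o u v z) hz
    rw [key] at h1
    exact (mul_nonneg_iff_of_pos_left h).1 h1

lemma tn_iff (o u v : P) (h : 0 < cr u v) (a b c d : P) :
    Tn a b c d ↔ Tn (af o u v a) (af o u v b) (af o u v c) (af o u v d) := by
  constructor
  · intro ht
    refine ⟨?_, ?_, ?_, ?_⟩
    · rw [key]; exact mul_pos h ht.ta
    · rw [key]; exact mul_pos h ht.tb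
    · rw [key]; exact mul_pos h ht.tc
    · rw [key]; exact mul_pos h ht.td
  · intro ht
    refine ⟨?_, ?_, ?_, ?_⟩
    · have := ht.ta; rw [key] at this; exact (mul_pos_iff_of_pos_left h).1 this
    · have := ht.tb; rw [key] at this; exact (mul_pos_iff_of_pos_left h).1 this
    · have := ht.tc; rw [key] at this; exact (mul_pos_iff_of_pos_left h).1 this
    · have := ht.td; rw [key] at this; exact (mul_pos_iff_of_pos_left h).1 this

theorem t_AF2 : S_AF2 := by
  intro o u v h K a b c d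
  refine ⟨?_, ?_⟩
  · unfold Ci
    rw [tn_iff o u v h a b c d]
    refine and_congr_right fun _ => ?_
    constructor
    · intro hl
      exact ⟨(lf_iff o u v h K a b).1 hl.ab, (lf_iff o u v h K b c).1 hl.bc,
        (lf_iff o u v h K c d).1 hl.cd, (lf_iff o u v h K d a).1 hl.da⟩
    · intro hl
      exact ⟨(lf_iff o u v h K a b).2 hl.ab, (lf_iff o u v h K b c).2 hl.bc,
        (lf_iff o u v h K c d).2 hl.cd, (lf_iff o u v h K d a).2 hl.da⟩
  · unfold ar
    rw [key]
    ring

end Pool.Agent.N695.CQ
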